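import Pool.Agent.Helper93.P13.GenW

/-!
# Rows of Hecke operators: the check in blocks of ten cosets
-/

set_option autoImplicit false

namespace Pool.Agent.Helper93.P13

open Pool.Agent.Helper93.TLE (T5)
open Pool.Agent.Helper4.P11 (HTy B4 mcls na nb nc nd)

/-- A list of `n` certificates given by one number (digits in base `256`). -/
def decC : ℕ → ℕ → List C3
  | 0, _ => []
  | n + 1, N => (N % 256, N / 256 % 256, N / 65536 % 256) :: decC n (N / 16777216)

/-- A list of `n` cusps given by one number (digits in base `65536` with offset `32768`). -/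
def decK : ℕ → ℕ → List (ℤ × ℤ)
  | 0, _ => []
  | n + 1, N => (((N % 65536 : ℕ) : ℤ) - 32768, ((N / 65536 % 65536 : ℕ) : ℤ) - 32768) ::
      decK n (N / 4294967296)

/-- The check `ChkW` with the terms sorted in blocks of ten cosets first. -/
def ChkB (pb pc : ℤ) (l : ℕ) (h : ℤ) (u1 u2 v1 v2 : ℤ) (K : List (ℕ × ℕ × List (ℤ × ℤ)))
    (TC : List ((B4 × T5) × C3)) : Prop :=
  (∀ e ∈ TC, e.2.1 < l + 1) ∧
  ∀ m < l / 10 + 1, ∀ d < 10, 10 * m + d < l + 1 →
    ChkD pb pc l (dl l h (10 * m + d)) u1 u2 v1 v2 (K.getD (10 * m + d) (0, 0, []))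
      ((TC.filter fun e => e.2.1 / 10 = m).filter fun e => e.2.1 = 10 * m + d)

instance (pb pc : ℤ) (l : ℕ) (h : ℤ) (u1 u2 v1 v2 : ℤ) (K : List (ℕ × ℕ × List (ℤ × ℤ)))
    (TC : List ((B4 × T5) × C3)) : Decidable (ChkB pb pc l h u1 u2 v1 v2 K TC) := by
  unfold ChkB; infer_instance

theorem ChkB.chkW {pb pc : ℤ} {l : ℕ} {h : ℤ} {u1 u2 v1 v2 : ℤ}
    {K : List (ℕ × ℕ × List (ℤ × ℤ))} {TC : List ((B4 × T5) × C3)}
    (hc : ChkB pb pc l h u1 u2 v1 v2 K TC) : ChkW pb pc l h u1 u2 v1 v2 K TC := by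
  refine ⟨hc.1, fun n hn => ?_⟩
  have h1 := hc.2 (n / 10) (by omega) (n % 10) (by omega)
  have e : 10 * (n / 10) + n % 10 = n := by omega
  rw [e] at h1
  have h2 := h1 hn
  rw [List.filter_filter] at h2
  have e2 : (TC.filter fun a => decide (a.2.1 = n) && decide (a.2.1 / 10 = n / 10)) =
      TC.filter fun a => decide (a.2.1 = n) := by
    refine List.filter_congr fun a _ => ?_
    by_cases ha : a.2.1 = n
    · simp [ha]
    · simp [ha]
  rw [e2] at h2
  exact h2

end Pool.Agent.Helper93.P13
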