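import Pool.Agent.Helper93.P13.HkCore
import Pool.Agent.Helper93.P13.GenW2
import Pool.Agent.Helper28.P13.ListsA

/-!
# Levels `13^n`: the rows of the Hecke operator `T_3`
-/

set_option autoImplicit false
set_option maxRecDepth 100000

namespace Pool.Agent.Helper93.P13

open Pool.Agent.Helper28.WK (SymP)
open Pool.Agent.Helper14.CV (Tl)
open Pool.Agent.Helper84.P13
open Pool.Agent.Helper2.P13 (pf13)
open Pool.Agent.Helper28.P13 (T3M)
open Pool.Agent.Helper93.P13 (C3 ChkB decC decK)

private def cc0 : Fin 4 → List C3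
  | 0 => decC 4 309494491448645579404541952
  | 1 => decC 2 2203368686337
  | 2 => decC 1 197633
  | 3 => decC 1 262401

private def kk0 : List (ℕ × ℕ × List (ℤ × ℤ)) := [
  (0, 1, decK 2 9223794251467358209),
  (0, 1, decK 5 730806570358324775119391465426946212429861781505),
  (0, 1, decK 2 9223794251467358209),
  (0, 1, decK 3 39615894655085947946249781249)]

private theorem ch0 : ChkB 1 13 3 1 1 0 0 1 kk0 (tcM (T3M 0) cc0) := by decide +kernel

theorem hk3_0 (r s : ℕ) (G : ℤ → ℤ → ZMod 13) (hG : SymP 13 r (s + 1) G) :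
    (edge13 0 1 0 0 1 (Tl 3 (13 ^ r) G) : Fn13 (13 ^ r) (13 ^ s)) = ∑ f : Fin 4, opL (T3M 0 f) (pf13 G f) :=
  rowW 3 (by norm_num) (by norm_num) 1 1 0 0 1 (Or.inl (by norm_num)) (Or.inr (by norm_num)) (T3M 0) kk0 cc0 ch0.chkW r s G hG

private def cc1 : Fin 4 → List C3
  | 0 => decC 6 683238807448538258156087664850340217344
  | 1 => decC 4 933300232960651322085016833
  | 2 => decC 5 20870758557466895394263437031048961
  | 3 => decC 3 92306349725829234945

private def kk1 : List (ℕ × ℕ × List (ℤ × ℤ)) := [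
  (0, 1, decK 3 39614685747712514436536303617),
  (0, 1, decK 9 248703355173983105711228999241605847695955821946428035686831131789316971546348924534782),
  (0, 1, decK 6 3139365008142246511563893641274054644185107307919514894337),
  (0, 1, decK 4 170154164321466879580366835492678369284)]

private theorem ch1 : ChkB 1 13 3 1 1 3 0 1 kk1 (tcM (T3M 1) cc1) := by decide +kernel

theorem hk3_1 (r s : ℕ) (G : ℤ → ℤ → ZMod 13) (hG : SymP 13 r (s + 1) G) :
    (edge13 0 1 3 0 1 (Tl 3 (13 ^ r) G) : Fn13 (13 ^ r) (13 ^ s)) = ∑ f : Fin 4, opL (T3M 1 f) (pf13 G f) :=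
  rowW 3 (by norm_num) (by norm_num) 1 1 3 0 1 (Or.inl (by norm_num)) (Or.inr (by norm_num)) (T3M 1) kk1 cc1 ch1.chkW r s G hG

private def cc2 : Fin 4 → List C3
  | 0 => decC 4 311912361678450434129461761
  | 1 => decC 6 263040943764258858719338037592681879765504
  | 2 => decC 6 437946090786781005574398929764891656060928
  | 3 => decC 2 7722385147649

private def kk2 : List (ℕ × ℕ × List (ℤ × ℤ)) := [
  (0, 1, decK 3 39618312580511590549484109827),
  (0, 1, decK 8 57898694902737501187483767276068856093371933672501064258273481097198334017535),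
  (0, 1, decK 8 57911062859149251046662898964943573255545600837931873812466365298030875672577),
  (0, 1, decK 3 39623148265345556805171970049)]

private theorem ch2 : ChkB 1 13 3 1 1 2 1 3 kk2 (tcM (T3M 2) cc2) := by decide +kernel

theorem hk3_2 (r s : ℕ) (G : ℤ → ℤ → ZMod 13) (hG : SymP 13 r (s + 1) G) :
    (edge13 0 1 2 1 3 (Tl 3 (13 ^ r) G) : Fn13 (13 ^ r) (13 ^ s)) = ∑ f : Fin 4, opL (T3M 2 f) (pf13 G f) :=
  rowW 3 (by norm_num) (by norm_num) 1 1 2 1 3 (Or.inl (by norm_num)) (Or.inl (by norm_num)) (T3M 2) kk2 cc2 ch2.chkW r s G hG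

private def cc3 : Fin 4 → List C3
  | 0 => decC 8 192314627414132351196375853701524863539999840258949632
  | 1 => decC 6 1702756741062490485915013918152244528128
  | 2 => decC 4 1237954280532379043394486528
  | 3 => []

private def kk3 : List (ℕ × ℕ × List (ℤ × ℤ)) := [
  (0, 1, decK 5 730828872804924755991191527460701441798629851138),
  (0, 1, decK 6 3138694539881236933827902534762546038189892017103798108159),
  (0, 1, decK 6 3138694539881170032272856100002879078599700090958054522882),
  (0, 1, decK 5 731207987855328268395908755908901163510560030725)]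

private theorem ch3 : ChkB 1 13 3 1 2 3 1 2 kk3 (tcM (T3M 3) cc3) := by decide +kernel

theorem hk3_3 (r s : ℕ) (G : ℤ → ℤ → ZMod 13) (hG : SymP 13 r (s + 1) G) :
    (edge13 0 2 3 1 2 (Tl 3 (13 ^ r) G) : Fn13 (13 ^ r) (13 ^ s)) = ∑ f : Fin 4, opL (T3M 3 f) (pf13 G f) :=
  rowW 3 (by norm_num) (by norm_num) 1 2 3 1 2 (Or.inl (by norm_num)) (Or.inl (by norm_num)) (T3M 3) kk3 cc3 ch3.chkW r s G hG

end Pool.Agent.Helper93.P13
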