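import Pool.Agent.Helper93.P13.M_Hk2
import Pool.Agent.Helper93.P13.M_Hk3
import Pool.Agent.Helper93.P13.M_Hk5
import Pool.Agent.Helper93.P13.M_Hk7
import Pool.Agent.Helper93.P13.M_Hk11
import Pool.Agent.Helper93.P13.M_Hk17
import Pool.Agent.Helper93.P13.M_Hk19
import Pool.Agent.Helper93.P13.M_Hk23
import Pool.Agent.Helper93.P13.M_Hk29_0
import Pool.Agent.Helper93.P13.M_Hk29_1
import Pool.Agent.Helper93.P13.M_Hk29_2
import Pool.Agent.Helper93.P13.M_Hk29_3
import Pool.Agent.Helper93.P13.M_Hk31_0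
import Pool.Agent.Helper93.P13.M_Hk31_1
import Pool.Agent.Helper93.P13.M_Hk31_2
import Pool.Agent.Helper93.P13.M_Hk31_3
import Pool.Agent.Helper93.P13.M_Hk37_0
import Pool.Agent.Helper93.P13.M_Hk37_1
import Pool.Agent.Helper93.P13.M_Hk37_2
import Pool.Agent.Helper93.P13.M_Hk37_3
import Pool.Agent.Helper93.P13.M_Hk43_0
import Pool.Agent.Helper93.P13.M_Hk43_1
import Pool.Agent.Helper93.P13.M_Hk43_2
import Pool.Agent.Helper93.P13.M_Hk43_3
import Pool.Agent.Helper93.P13.M_Hk47_0
import Pool.Agent.Helper93.P13.M_Hk47_1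
import Pool.Agent.Helper93.P13.M_Hk47_2
import Pool.Agent.Helper93.P13.M_Hk47_3
import Pool.Agent.Helper93.P13.M_Hk53_0
import Pool.Agent.Helper93.P13.M_Hk53_1
import Pool.Agent.Helper93.P13.M_Hk53_2
import Pool.Agent.Helper93.P13.M_Hk53_3
import Pool.Agent.Helper93.P13.M_Hk59_0
import Pool.Agent.Helper93.P13.M_Hk59_1
import Pool.Agent.Helper93.P13.M_Hk59_2
import Pool.Agent.Helper93.P13.M_Hk59_3
import Pool.Agent.Helper93.P13.M_Hk61_0
import Pool.Agent.Helper93.P13.M_Hk61_1
import Pool.Agent.Helper93.P13.M_Hk61_2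
import Pool.Agent.Helper93.P13.M_Hk61_3
import Pool.Agent.Helper93.P13.M_Hk67_0
import Pool.Agent.Helper93.P13.M_Hk67_1
import Pool.Agent.Helper93.P13.M_Hk67_2
import Pool.Agent.Helper93.P13.M_Hk67_3
import Pool.Agent.Helper93.P13.M_Hk71_0
import Pool.Agent.Helper93.P13.M_Hk71_1
import Pool.Agent.Helper93.P13.M_Hk71_2
import Pool.Agent.Helper93.P13.M_Hk71_3
import Pool.Agent.Helper93.P13.M_Hk73_0
import Pool.Agent.Helper93.P13.M_Hk73_1
import Pool.Agent.Helper93.P13.M_Hk73_2
import Pool.Agent.Helper93.P13.M_Hk73_3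
import Pool.Agent.Helper93.P13.M_Hk79_0
import Pool.Agent.Helper93.P13.M_Hk79_1
import Pool.Agent.Helper93.P13.M_Hk79_2
import Pool.Agent.Helper93.P13.M_Hk79_3
import Pool.Agent.Helper93.P13.M_Hk89_0
import Pool.Agent.Helper93.P13.M_Hk89_1
import Pool.Agent.Helper93.P13.M_Hk89_2
import Pool.Agent.Helper93.P13.M_Hk89_3
import Pool.Agent.Helper93.P13.M_Hk101_0
import Pool.Agent.Helper93.P13.M_Hk101_1
import Pool.Agent.Helper93.P13.M_Hk101_2
import Pool.Agent.Helper93.P13.M_Hk101_3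
import Pool.Agent.Helper76.P13.StD

/-!
# Levels `13^n`: the rows of the Hecke operators `T_l`, `l ≤ 101`
-/

set_option autoImplicit false
set_option maxRecDepth 100000

namespace Pool.Agent.Helper93.P13

open Pool.Agent.Helper28.P13
open Pool.Agent.Helper76.P13D (THkL THk)

/-- HK, `l = 2`. -/
theorem hHk2 : THkL 2 T2M := by
  intro r s G hG i
  fin_cases i
  · exact hk2_0 r s G hG
  · exact hk2_1 r s G hG
  · exact hk2_2 r s G hG
  · exact hk2_3 r s G hG

/-- HK, `l = 3`. -/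
theorem hHk3 : THkL 3 T3M := by
  intro r s G hG i
  fin_cases i
  · exact hk3_0 r s G hG
  · exact hk3_1 r s G hG
  · exact hk3_2 r s G hG
  · exact hk3_3 r s G hG

/-- HK, `l = 5`. -/
theorem hHk5 : THkL 5 T5M := by
  intro r s G hG i
  fin_cases i
  · exact hk5_0 r s G hG
  · exact hk5_1 r s G hG
  · exact hk5_2 r s G hG
  · exact hk5_3 r s G hG

/-- HK, `l = 7`. -/
theorem hHk7 : THkL 7 T7M := by
  intro r s G hG i
  fin_cases i
  · exact hk7_0 r s G hG
  · exact hk7_1 r s G hG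
  · exact hk7_2 r s G hG
  · exact hk7_3 r s G hG

/-- HK, `l = 11`. -/
theorem hHk11 : THkL 11 T11M := by
  intro r s G hG i
  fin_cases i
  · exact hk11_0 r s G hG
  · exact hk11_1 r s G hG
  · exact hk11_2 r s G hG
  · exact hk11_3 r s G hG

/-- HK, `l = 17`. -/
theorem hHk17 : THkL 17 T17M := by
  intro r s G hG i
  fin_cases i
  · exact hk17_0 r s G hG
  · exact hk17_1 r s G hG
  · exact hk17_2 r s G hG
  · exact hk17_3 r s G hG

/-- HK, `l = 19`. -/
theorem hHk19 : THkL 19 T19M := by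
  intro r s G hG i
  fin_cases i
  · exact hk19_0 r s G hG
  · exact hk19_1 r s G hG
  · exact hk19_2 r s G hG
  · exact hk19_3 r s G hG

/-- HK, `l = 23`. -/
theorem hHk23 : THkL 23 T23M := by
  intro r s G hG i
  fin_cases i
  · exact hk23_0 r s G hG
  · exact hk23_1 r s G hG
  · exact hk23_2 r s G hG
  · exact hk23_3 r s G hG

/-- HK, `l = 29`. -/
theorem hHk29 : THkL 29 T29M := by
  intro r s G hG i
  fin_cases i
  · exact hk29_0 r s G hG
  · exact hk29_1 r s G hG
  · exact hk29_2 r s G hG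
  · exact hk29_3 r s G hG

/-- HK, `l = 31`. -/
theorem hHk31 : THkL 31 T31M := by
  intro r s G hG i
  fin_cases i
  · exact hk31_0 r s G hG
  · exact hk31_1 r s G hG
  · exact hk31_2 r s G hG
  · exact hk31_3 r s G hG

/-- HK, `l = 37`. -/
theorem hHk37 : THkL 37 T37M := by
  intro r s G hG i
  fin_cases i
  · exact hk37_0 r s G hG
  · exact hk37_1 r s G hG
  · exact hk37_2 r s G hG
  · exact hk37_3 r s G hG

/-- HK, `l = 43`. -/
theorem hHk43 : THkL 43 T43M := by
  intro r s G hG i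
  fin_cases i
  · exact hk43_0 r s G hG
  · exact hk43_1 r s G hG
  · exact hk43_2 r s G hG
  · exact hk43_3 r s G hG

/-- HK, `l = 47`. -/
theorem hHk47 : THkL 47 T47M := by
  intro r s G hG i
  fin_cases i
  · exact hk47_0 r s G hG
  · exact hk47_1 r s G hG
  · exact hk47_2 r s G hG
  · exact hk47_3 r s G hG

/-- HK, `l = 53`. -/
theorem hHk53 : THkL 53 T53M := by
  intro r s G hG i
  fin_cases i
  · exact hk53_0 r s G hG
  · exact hk53_1 r s G hG
  · exact hk53_2 r s G hG
  · exact hk53_3 r s G hG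

/-- HK, `l = 59`. -/
theorem hHk59 : THkL 59 T59M := by
  intro r s G hG i
  fin_cases i
  · exact hk59_0 r s G hG
  · exact hk59_1 r s G hG
  · exact hk59_2 r s G hG
  · exact hk59_3 r s G hG

/-- HK, `l = 61`. -/
theorem hHk61 : THkL 61 T61M := by
  intro r s G hG i
  fin_cases i
  · exact hk61_0 r s G hG
  · exact hk61_1 r s G hG
  · exact hk61_2 r s G hG
  · exact hk61_3 r s G hG

/-- HK, `l = 67`. -/
theorem hHk67 : THkL 67 T67M := by
  intro r s G hG i
  fin_cases i
  · exact hk67_0 r s G hG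
  · exact hk67_1 r s G hG
  · exact hk67_2 r s G hG
  · exact hk67_3 r s G hG

/-- HK, `l = 71`. -/
theorem hHk71 : THkL 71 T71M := by
  intro r s G hG i
  fin_cases i
  · exact hk71_0 r s G hG
  · exact hk71_1 r s G hG
  · exact hk71_2 r s G hG
  · exact hk71_3 r s G hG

/-- HK, `l = 73`. -/
theorem hHk73 : THkL 73 T73M := by
  intro r s G hG i
  fin_cases i
  · exact hk73_0 r s G hG
  · exact hk73_1 r s G hG
  · exact hk73_2 r s G hG
  · exact hk73_3 r s G hG

/-- HK, `l = 79`. -/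
theorem hHk79 : THkL 79 T79M := by
  intro r s G hG i
  fin_cases i
  · exact hk79_0 r s G hG
  · exact hk79_1 r s G hG
  · exact hk79_2 r s G hG
  · exact hk79_3 r s G hG

/-- HK, `l = 89`. -/
theorem hHk89 : THkL 89 T89M := by
  intro r s G hG i
  fin_cases i
  · exact hk89_0 r s G hG
  · exact hk89_1 r s G hG
  · exact hk89_2 r s G hG
  · exact hk89_3 r s G hG

/-- HK, `l = 101`. -/
theorem hHk101 : THkL 101 T101M := by
  intro r s G hG i
  fin_cases i
  · exact hk101_0 r s G hG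
  · exact hk101_1 r s G hG
  · exact hk101_2 r s G hG
  · exact hk101_3 r s G hG

/-- HK. -/
theorem hHk : THk := by
  intro l hl
  simp only [PrM, List.mem_cons, List.not_mem_nil, or_false] at hl
  rcases hl with rfl | rfl | rfl | rfl | rfl | rfl | rfl | rfl | rfl | rfl | rfl | rfl | rfl | rfl | rfl | rfl | rfl | rfl | rfl | rfl | rfl | rfl
  · exact hHk2
  · exact hHk3
  · exact hHk5
  · exact hHk7
  · exact hHk11
  · exact hHk17
  · exact hHk19
  · exact hHk23
  · exact hHk29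
  · exact hHk31
  · exact hHk37
  · exact hHk43
  · exact hHk47
  · exact hHk53
  · exact hHk59
  · exact hHk61
  · exact hHk67
  · exact hHk71
  · exact hHk73
  · exact hHk79
  · exact hHk89
  · exact hHk101

end Pool.Agent.Helper93.P13
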