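import Pool.Agent.Helper84.P13.D1
import Pool.Agent.Helper2.P13.StP
import Pool.Agent.Helper93.P13.GenW

/-!
# Levels `13^n`: the row of a Hecke operator from a list with certificates
-/

set_option autoImplicit false
set_option maxRecDepth 100000

namespace Pool.Agent.Helper93.P13

open Pool.Agent.Helper14.CV (Homog EqC act Tl)
open Pool.Agent.Helper28.WK (SymP)
open Pool.Agent.Helper84.P13
open Pool.Agent.Helper2.P13 (pf13)
open Pool.Agent.Helper4.P11 (B4)
open Pool.Agent.Helper93.P13 (C3 zf zf_map ChkW row_of_chkW)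

private theorem opL_apply (L : List Tm) {q q' : ℕ} (F : Fn13 q q') (x : ZMod q) (y : ZMod q') :
    opL L F x y = (L.map fun t => t.1 • tr13 t.2.1 t.2.2.1 t.2.2.2.1 t.2.2.2.2 F x y).sum := by
  induction L with
  | nil => simp [opL]
  | cons t L ih =>
    have e : opL (t :: L) F x y = (((t.1 : ℤ) : ZMod 13) • op13 t.2.1 t.2.2.1 t.2.2.2.1 t.2.2.2.2) F x y +
        opL L F x y := by
      simp [opL]
    rw [e, ih, List.map_cons, List.sum_cons, zsmul_eq_mul]
    rfl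

/-- The list of the terms with their basic paths and certificates. -/
def tcM (L : Fin 4 → List Tm) (C : Fin 4 → List C3) : List ((B4 × Tm) × C3) :=
  zf (1, 0, 0, 1) (L 0) (C 0) ++
    zf (1, 3, 0, 1) (L 1) (C 1) ++
    zf (1, 2, 1, 3) (L 2) (C 2) ++
    zf (2, 3, 1, 2) (L 3) (C 3)

private theorem zf_mem (b : B4) (L : List Tm) (C : List C3) :
    ∀ e ∈ zf b L C, e.1.1 = b := by
  intro e he
  have h : e.1 ∈ (zf b L C).map fun e => e.1 := List.mem_map_of_mem he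
  rw [zf_map] at h
  obtain ⟨t, _, ht⟩ := List.mem_map.1 h
  rw [← ht]

private theorem zf_sum {R : Type} [AddCommGroup R] (b : B4) (L : List Tm) (C : List C3)
    (H : B4 × Tm → R) :
    ((zf b L C).map fun e => H e.1).sum = (L.map fun t => H (b, t)).sum := by
  have h : ((zf b L C).map fun e => H e.1) = ((zf b L C).map fun e => e.1).map H := by
    rw [List.map_map]; rfl
  rw [h, zf_map, List.map_map]
  rfl

private theorem tcM_ne (L : Fin 4 → List Tm) (C : Fin 4 → List C3) :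
    ∀ e ∈ tcM L C, (e.1.1.1 ≠ 0 ∨ e.1.1.2.1 ≠ 0) ∧ (e.1.1.2.2.1 ≠ 0 ∨ e.1.1.2.2.2 ≠ 0) := by
  intro e he
  unfold tcM at he
  simp only [List.mem_append] at he
  rcases he with ((he | he) | he) | he <;>
    (rw [zf_mem _ _ _ e he]; decide)

/-- One row. -/
theorem rowW (l : ℕ) (hl : l.Prime) (hl13 : l ≠ 13) (h : ℤ)
    (u1 u2 v1 v2 : ℤ) (hu : u1 ≠ 0 ∨ u2 ≠ 0) (hv : v1 ≠ 0 ∨ v2 ≠ 0) (L : Fin 4 → List Tm)
    (K : List (ℕ × ℕ × List (ℤ × ℤ))) (C : Fin 4 → List C3)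
    (hc : ChkW 1 13 l h u1 u2 v1 v2 K (tcM L C))
    (r s : ℕ) (G : ℤ → ℤ → ZMod 13) (hG : SymP 13 r (s + 1) G) :
    (edge13 0 u1 u2 v1 v2 (Tl l (13 ^ r) G) : Fn13 (13 ^ r) (13 ^ s)) =
      ∑ f : Fin 4, opL (L f) (pf13 G f) := by
  rw [Fin.sum_univ_four]
  funext x y
  have hl0 : (l : ℤ) ≠ 0 := by exact_mod_cast hl.ne_zero
  have hpl : ¬ (13 : ℤ) ∣ (l : ℤ) := by
    intro h
    have h' : (13 : ℕ) ∣ l := by exact_mod_cast h
    exact hl13 (((Nat.prime_dvd_prime_iff_eq (by norm_num) hl).1 h').symm)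
  have hJn : ((List.range l).map fun k : ℕ => (k : ℤ) - h).Nodup := by
    refine List.Nodup.map ?_ List.nodup_range
    intro a b hab
    have : (a : ℤ) - h = b - h := hab
    omega
  have hF := hkF (ZMod 13) inferInstance r s l G
    ((List.range l).map fun k : ℕ => (k : ℤ) - h).toFinset hl hl13 hG
    (by rw [List.toFinset_card_of_nodup hJn, List.length_map, List.length_range])
    (fun j hj j' hj' hd => by
      obtain ⟨k, hk, rfl⟩ := List.mem_map.1 (List.mem_toFinset.1 hj)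
      obtain ⟨k', hk', rfl⟩ := List.mem_map.1 (List.mem_toFinset.1 hj')
      have h1 : k < l := List.mem_range.1 hk
      have h2 : k' < l := List.mem_range.1 hk'
      have h3 : ((k : ℤ) - h) - ((k' : ℤ) - h) = 0 := by
        refine Int.eq_zero_of_abs_lt_dvd hd ?_
        rw [abs_lt]
        constructor <;> omega
      omega)
    u1 u2 v1 v2 hu hv x y
  rw [List.sum_toFinset _ hJn] at hF
  have key := row_of_chkW (R := ZMod 13) (X := ZMod (13 ^ r) × ZMod (13 ^ s)) 13 1 13 l h hl0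
    (by norm_num) hpl (by norm_num)
    (fun a b c d F z => tr13 a b c d (fun x y => F (x, y)) z.1 z.2)
    (fun a b c d => ⟨fun z => (((b : ZMod (13 ^ r)) + d * z.1) * ((a : ZMod (13 ^ r)) + 13 * c * z.1)⁻¹,
      ((c : ZMod (13 ^ s)) + a * z.2) * ((d : ZMod (13 ^ s)) + 13 * b * z.2)⁻¹), fun F z => rfl⟩)
    (fun F a b c d a' b' c' d' ha hd ha' hd' => by
      funext z
      have h := (trm (ZMod 13) r s (fun x y => F (x, y))).1 a b c d a' b' c' d' ha hd ha' hd'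
      have e1 : (1 : ℤ) * 13 = 13 := by norm_num
      rw [e1]
      exact congrFun (congrFun h z.1) z.2)
    (fun u1 u2 v1 v2 z => edge13 0 u1 u2 v1 v2 G z.1 z.2) G hG.1
    (fun z => ⟨1, 1, (z.1.val : ℤ), 13 * rY13 0 z.1 z.2,
      1 + 13 * (z.1.val : ℤ) * rY13 0 z.1 z.2, by
        have : (1 : ℤ) * (1 + 13 * (z.1.val : ℤ) * rY13 0 z.1 z.2) -
          (z.1.val : ℤ) * (13 * rY13 0 z.1 z.2) = 1 := by ring
        rw [this]; exact one_ne_zero,
      fun u1 u2 v1 v2 => by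
        unfold edge13
        simp only [one_mul, one_smul, pow_zero, zero_add, pow_one]⟩)
    (fun a b c d u1 u2 v1 v2 hd hu hv z => by
      rw [one_mul] at hd
      have hd' : a * d - 13 * b * c = 1 := by linear_combination hd
      have h := tre (ZMod 13) inferInstance r s G hG a b c d u1 u2 v1 v2 hd' hu hv z.1 z.2
      simp only [one_mul]
      exact h)
    u1 u2 v1 v2 K (tcM L C) (tcM_ne L C) hc
    (edge13 0 u1 u2 v1 v2 (Tl l (13 ^ r) G) x y) (x, y) (by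
      rw [hF]
      simp only [one_mul])
  rw [key]
  show _ = opL (L 0) (pf13 G 0) x y + opL (L 1) (pf13 G 1) x y + opL (L 2) (pf13 G 2) x y + opL (L 3) (pf13 G 3) x y
  rw [opL_apply, opL_apply, opL_apply, opL_apply]
  unfold tcM
  simp only [List.map_append, List.sum_append]
  exact (congrArg₂ (· + ·) (congrArg₂ (· + ·) (congrArg₂ (· + ·) (zf_sum _ (L 0) (C 0) (fun e => e.2.1 • tr13 e.2.2.1 e.2.2.2.1 e.2.2.2.2.1 e.2.2.2.2.2
    (fun x y => edge13 0 e.1.1 e.1.2.1 e.1.2.2.1 e.1.2.2.2 G x y) x y))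
  (zf_sum _ (L 1) (C 1) (fun e => e.2.1 • tr13 e.2.2.1 e.2.2.2.1 e.2.2.2.2.1 e.2.2.2.2.2
    (fun x y => edge13 0 e.1.1 e.1.2.1 e.1.2.2.1 e.1.2.2.2 G x y) x y)))
  (zf_sum _ (L 2) (C 2) (fun e => e.2.1 • tr13 e.2.2.1 e.2.2.2.1 e.2.2.2.2.1 e.2.2.2.2.2
    (fun x y => edge13 0 e.1.1 e.1.2.1 e.1.2.2.1 e.1.2.2.2 G x y) x y)))
  (zf_sum _ (L 3) (C 3) (fun e => e.2.1 • tr13 e.2.2.1 e.2.2.2.1 e.2.2.2.2.1 e.2.2.2.2.2
    (fun x y => edge13 0 e.1.1 e.1.2.1 e.1.2.2.1 e.1.2.2.2 G x y) x y)))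

end Pool.Agent.Helper93.P13
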