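import Pool.Agent.Helper93.P13.HkCore
import Pool.Agent.Helper93.P13.GenW2
import Pool.Agent.Helper28.P13.ListsA

/-!
# Levels `13^n`: the rows of the Hecke operator `T_2`
-/

set_option autoImplicit false
set_option maxRecDepth 100000

namespace Pool.Agent.Helper93.P13

open Pool.Agent.Helper28.WK (SymP)
open Pool.Agent.Helper14.CV (Tl)
open Pool.Agent.Helper84.P13
open Pool.Agent.Helper2.P13 (pf13)
open Pool.Agent.Helper28.P13 (T2M)
open Pool.Agent.Helper93.P13 (C3 ChkB decC decK)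

private def cc0 : Fin 4 → List C3
  | 0 => decC 3 18447027747743137792
  | 1 => decC 1 131842
  | 2 => decC 1 196866
  | 3 => []

private def kk0 : List (ℕ × ℕ × List (ℤ × ℤ)) := [
  (0, 1, decK 2 9223794251467358209),
  (0, 1, decK 2 9223794251467358209),
  (0, 1, decK 4 170159356618318160797737164517853396993)]

private theorem ch0 : ChkB 1 13 2 0 1 0 0 1 kk0 (tcM (T2M 0) cc0) := by decide +kernel

theorem hk2_0 (r s : ℕ) (G : ℤ → ℤ → ZMod 13) (hG : SymP 13 r (s + 1) G) :
    (edge13 0 1 0 0 1 (Tl 2 (13 ^ r) G) : Fn13 (13 ^ r) (13 ^ s)) = ∑ f : Fin 4, opL (T2M 0 f) (pf13 G f) :=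
  rowW 2 (by norm_num) (by norm_num) 0 1 0 0 1 (Or.inl (by norm_num)) (Or.inr (by norm_num)) (T2M 0) kk0 cc0 ch0.chkW r s G hG

private def cc1 : Fin 4 → List C3
  | 0 => []
  | 1 => decC 2 8606777856
  | 2 => decC 2 2203335131904
  | 3 => decC 2 1099545378816

private def kk1 : List (ℕ × ℕ × List (ℤ × ℤ)) := [
  (0, 1, decK 4 170154164321462043840194325874311659522),
  (0, 1, decK 3 39620730376810587582410162177),
  (0, 1, decK 2 9224075730739232770)]

private theorem ch1 : ChkB 1 13 2 0 1 3 0 1 kk1 (tcM (T2M 1) cc1) := by decide +kernel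

theorem hk2_1 (r s : ℕ) (G : ℤ → ℤ → ZMod 13) (hG : SymP 13 r (s + 1) G) :
    (edge13 0 1 3 0 1 (Tl 2 (13 ^ r) G) : Fn13 (13 ^ r) (13 ^ s)) = ∑ f : Fin 4, opL (T2M 1 f) (pf13 G f) :=
  rowW 2 (by norm_num) (by norm_num) 0 1 3 0 1 (Or.inl (by norm_num)) (Or.inr (by norm_num)) (T2M 1) kk1 cc1 ch1.chkW r s G hG

private def cc2 : Fin 4 → List C3
  | 0 => decC 6 1704101545949158068706475114821008425472
  | 1 => decC 5 31316198887994726079720565638366208
  | 2 => decC 4 2487978818609822720615253248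
  | 3 => decC 3 184756243963134148864

private def kk2 : List (ℕ × ℕ × List (ℤ × ℤ)) := [
  (0, 1, decK 6 3138790322313931186166993776679658251133714733256253997057),
  (0, 1, decK 4 170148971945377764349942094421966487553),
  (0, 1, decK 11 4587767153847289787248264551535686596307292904519495526391112114185748110073129577682925727368837241012227)]

private theorem ch2 : ChkB 1 13 2 0 1 2 1 3 kk2 (tcM (T2M 2) cc2) := by decide +kernel

theorem hk2_2 (r s : ℕ) (G : ℤ → ℤ → ZMod 13) (hG : SymP 13 r (s + 1) G) :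
    (edge13 0 1 2 1 3 (Tl 2 (13 ^ r) G) : Fn13 (13 ^ r) (13 ^ s)) = ∑ f : Fin 4, opL (T2M 2 f) (pf13 G f) :=
  rowW 2 (by norm_num) (by norm_num) 0 1 2 1 3 (Or.inl (by norm_num)) (Or.inl (by norm_num)) (T2M 2) kk2 cc2 ch2.chkW r s G hG

private def cc3 : Fin 4 → List C3
  | 0 => decC 4 4845240533939058777457154
  | 1 => decC 5 26103620551942776070126955808227328
  | 2 => decC 2 7735270049794
  | 3 => decC 1 526594

private def kk3 : List (ℕ × ℕ × List (ℤ × ℤ)) := [
  (0, 1, decK 2 9223794255762522116),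
  (0, 1, decK 3 39615894655086229421226688513),
  (0, 1, decK 10 1068042407569913661026322091132558350614561534832957485538162152829781032901464649616579841392645)]

private theorem ch3 : ChkB 1 13 2 0 2 3 1 2 kk3 (tcM (T2M 3) cc3) := by decide +kernel

theorem hk2_3 (r s : ℕ) (G : ℤ → ℤ → ZMod 13) (hG : SymP 13 r (s + 1) G) :
    (edge13 0 2 3 1 2 (Tl 2 (13 ^ r) G) : Fn13 (13 ^ r) (13 ^ s)) = ∑ f : Fin 4, opL (T2M 3 f) (pf13 G f) :=
  rowW 2 (by norm_num) (by norm_num) 0 2 3 1 2 (Or.inl (by norm_num)) (Or.inl (by norm_num)) (T2M 3) kk3 cc3 ch3.chkW r s G hG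

end Pool.Agent.Helper93.P13
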